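import Pool.Agent.PST.StmtsU
import Pool.Agent.PSS.StmtsOB
import Pool.Agent.Helper87_PSS.H1W
import Pool.Agent.Helper95_PSS.CSU
import Pool.Agent.Helper95_PSS.CFR
import Pool.Agent.Helper63_PSS.FXL
import Pool.Agent.Helper63_PSS.FUN
import Pool.Agent.Helper20_PSS.CSR
import Pool.Agent.Helper86_PSS.RTC
import Pool.Agent.Helper52_PSS.RFS
import Pool.Agent.Helper52_PSS.FTR
import Pool.Agent.Helper52_PSS.RFM
import Pool.Agent.Helper92_PSS.FMX
import Pool.Agent.Helper92_PSS.RED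
import Pool.Agent.Helper84_PSS.RFE
import Pool.Agent.Helper32_PSS.FSR
import Pool.Agent.Helper75_PSS.SPF
import Pool.Agent.Helper29_PSS.FRE
import Pool.Agent.Helper39_PSS.UNJ
import Pool.Agent.Helper19_PSS.UZL

/-! PST, block U, row OLU (311): the properties of a deformation which has a lift over the Witt
vectors. -/

set_option autoImplicit false

open scoped BigOperators TensorProduct PowerSeries

noncomputable section

namespace Pool.Agent.PST.U.H28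

open Pool.Agent.PFC (tw IsTv)
open Pool.Agent.PFD.D2 (Cdv FibG wittCdv wittCdv_π witt_charZero)
open Pool.Agent.PFD.D2b (FrR)
open Pool.Agent.PSS
open Pool.Agent.PSS.Dm (cst)

theorem csr' : CsrStmt := Pool.Agent.PSS.H20.csr
theorem rtc' : RtcStmt := Pool.Agent.PSS.H86.rtc csr'
theorem csu' : CsuStmt := Pool.Agent.PSS.H95.csu csr' rtc'
theorem rfe' : RfeStmt := Pool.Agent.PSS.H84.rfe
theorem unj' : UnjStmt := Pool.Agent.PSS.H39.unj
theorem rfm' : RfmStmt := Pool.Agent.PSS.H52.rfm rfe' unj'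
theorem fxl' : FxlStmt := Pool.Agent.PSS.H63.fxl
theorem fun' : FunStmt := Pool.Agent.PSS.H63.funs
theorem fre' : FreStmt := Pool.Agent.PSS.H29.fre
theorem spf' : SpfStmt := Pool.Agent.PSS.H75.spf
theorem rmp' : RmpStmt := Pool.Agent.PSS.H75.rmp
theorem fmx' : FmxStmt := Pool.Agent.PSS.H92.fmx fun' rfe'
theorem fsr' : FsrStmt := Pool.Agent.PSS.H32.fsr rfm' spf' fre'
theorem red' : RedStmt := Pool.Agent.PSS.H92.red fun' rmp'
theorem cfr' : CfrStmt := Pool.Agent.PSS.H95.cfr fun'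
theorem uzl' : UzlStmt := Pool.Agent.PSS.H19.uzl csu' unj'
theorem h1w' : H1wStmt := Pool.Agent.PSS.H87.h1w csu' fxl'

section aux

variable {R F V A A₀ κ Ω : Type} [CommRing R] [Field F] {cv : Cdv R F} [CommGroup V]
  [Fintype V] [Ring A₀] [Algebra F A₀] [Ring A] [Algebra R A] [Fintype κ] [Fintype Ω]
  [MulAction (V × V) Ω] {α₀ : V →* A₀} {lam₀ : A₀ →ₗ[F] F} {x₀ y₀ : κ → A₀} {b₀ : Ω → A₀}
  {c₀ : Ω → (A₀ →ₗ[F] F)} {f : FibG A A₀ cv} {α : V →* A} {lam : A →ₗ[R] R} {x y : κ → A}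
  {b : Ω → A} {c : Ω → (A →ₗ[R] R)}

/-- the frame of the special fibre -/
theorem fr_red (hL : LiftV cv α₀ lam₀ x₀ y₀ b₀ c₀ f α lam x y b c) : FrR (bw F α₀) b₀ c₀ := by
  have hsm : ∀ (r : R) (a : A), f.q (r • a) = cv.κ r • f.q a := by
    intro r a
    rw [Algebra.smul_def, map_mul, f.sc, ← Algebra.smul_def]
  have hqbw : ∀ (h : V × V) (a : A), f.q (bw R α h a) = bw F α₀ h (f.q a) := by
    intro h a
    show f.q (α h.1 * (a * α h.2⁻¹)) = α₀ h.1 * (f.q a * α₀ h.2⁻¹)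
    rw [map_mul, map_mul, hL.qa, hL.qa]
  refine ⟨fun g t => ?_, fun g t n => ?_, fun n => ?_⟩
  · rw [← hL.qb, hL.fr.1, hqbw, hL.qb]
  · obtain ⟨a, rfl⟩ := f.surj n
    have h := congrArg cv.κ (hL.fr.2.1 g t a)
    rw [hL.qc, hL.qc, hqbw] at h
    exact h
  · obtain ⟨a, rfl⟩ := f.surj n
    have h := congrArg f.q (hL.fr.2.2 a)
    rw [map_sum] at h
    refine Eq.trans (Finset.sum_congr rfl fun ω _ => ?_) h
    rw [hsm, hL.qb, hL.qc]

/-- the relative traces of the special fibre -/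
theorem rt_red (hL : LiftV cv α₀ lam₀ x₀ y₀ b₀ c₀ f α lam x y b c) (v : V) :
    f.q (rt x y (α v)) = rt x₀ y₀ (α₀ v) := by
  unfold rt
  rw [map_sum]
  refine Finset.sum_congr rfl fun i _ => ?_
  rw [map_mul, map_mul, hL.qa, hL.qx, hL.qy]

/-- an element with a left inverse modulo `π` has a left inverse -/
theorem lft_inv [Module.Finite R A] (s : A) (s₀ u₀ : A₀) (f : FibG A A₀ cv) (hs : f.q s = s₀)
    (hu : u₀ * s₀ = 1) : ∃ u : A, u * s = 1 := by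
  have hκπ : cv.κ cv.π = 0 := (cv.ker _).2 ⟨1, by rw [mul_one]⟩
  have hunit : ∀ r, IsUnit (1 + cv.π * r) := by
    intro r
    apply cv.loc
    rw [map_add, map_mul, hκπ, zero_mul, add_zero, map_one]
    exact one_ne_zero
  obtain ⟨u₁, hu₁⟩ := f.surj u₀
  have hq : f.q (u₁ * s - 1) = 0 := by
    rw [map_sub, map_mul, hu₁, hs, hu, map_one, sub_self]
  obtain ⟨d, hd⟩ := f.ker _ hq
  have hbij := unj' R A cv.π hunit (LinearMap.mulRight R (u₁ * s)) (by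
    intro a
    refine ⟨a * d, ?_⟩
    have e1 : a * (u₁ * s) - a = a * (u₁ * s - 1) := by
      rw [mul_sub, mul_one]
    rw [LinearMap.mulRight_apply, e1, hd, mul_smul_comm])
  obtain ⟨t, ht⟩ := hbij.2 1
  refine ⟨t * u₁, ?_⟩
  rw [LinearMap.mulRight_apply] at ht
  rw [mul_assoc, ht]

end aux

theorem olu (nbl : NblStmt) (dvd : DvdStmt) (sps : SpsStmt) (nzd : NzdStmt) (rhr : RhrStmt)
    (cnl : CnlStmt) : OluStmt := by
  intro ℓ _ F V A₀ A K B κ Ω _ _ _ _ _ _ _ _ _ _ _ _ _ _ _ _ _ _ _ _ _ W _ α₀ lam₀ x₀ y₀ b₀ c₀ D₀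
    f α lam x y b c u C D P m hpV hRF₀ hL hu hu₀ hTr hm hq
  have hcz : CharZero (WittVector ℓ F) := witt_charZero ℓ F
  have hℓ : ℓ.Prime := Fact.out
  -- (1) the form and the dual families
  have hH : H1P (WittVector ℓ F) (aw α W) := by
    intro δ hδ hw
    obtain ⟨e, he, h2⟩ := h1w' (WittVector ℓ F) K V A B κ Ω W α lam x y b c C u hu δ hδ
      (fun w hw' => hw ⟨w, hw'⟩)
    exact ⟨e, fun w => he w w.2, h2⟩
  obtain ⟨T, hT⟩ := Pool.Agent.PSS.H52.ex_tv W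
  have h1 := Pool.Agent.PSS.S0.H52.rfs (WittVector ℓ F) V A κ α lam x y W T hL.rf hT
  obtain ⟨Λ, hΛ1, hΛ2⟩ := fmx' (WittVector ℓ F) W A _ (aw α W) D lam _ _ hH h1
  obtain ⟨y', hy1, -⟩ := fsr' (WittVector ℓ F) W A _ (aw α W) D lam _ _ Λ h1 hΛ1 hΛ2
  obtain ⟨x', hx'⟩ : ∃ x' : κ × T → D.R, x' = fun t => D.of (cst (x t.1 * α t.2)) := ⟨_, rfl⟩
  have hRF : RF (WittVector ℓ F)⟦X⟧ D.w Λ x' y' := by
    rw [hx']
    exact hy1
  obtain ⟨ψ, Λ₀, hψ, hψw, hψs, hΛ₀, hRF'⟩ := red' (WittVector ℓ F) F V A A₀ _ W α (wittCdv ℓ F) f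
    α₀ D D₀ Λ _ _ hL.qa hq hRF
  obtain ⟨ψ', hψ', hψ'sm, -, -, hψ'k⟩ := rmp' (WittVector ℓ F) F W A A₀ (aw α W) (aw α₀ W) D D₀
    f.q (wittCdv ℓ F).κ f.sc (fun w => hL.qa w) hq
  have hψeq : ∀ a, ψ' a = ψ a := by
    intro a
    rw [← D.of_sq a, hψ, hψ']
  have hψsm : ∀ (r : (WittVector ℓ F)⟦X⟧) a, ψ (r • a) = (PowerSeries.map (wittCdv ℓ F).κ r) • ψ a := by
    intro r a
    rw [← hψeq, ← hψeq, hψ'sm]
  have hfree := fre' (WittVector ℓ F) W A (aw α W) D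
  have hfin := hfree.1
  have hfr := hfree.2
  have hℓS : ((ℓ : ℕ) : (WittVector ℓ F)⟦X⟧) = PowerSeries.C ((wittCdv ℓ F).π) := by
    rw [wittCdv_π, map_natCast]
  have hsmℓ : ∀ a : D.R, ℓ • a = ((ℓ : ℕ) : (WittVector ℓ F)⟦X⟧) • a := fun a =>
    (Nat.cast_smul_eq_nsmul _ ℓ a).symm
  have hCinj : Function.Injective (PowerSeries.C : WittVector ℓ F →+* (WittVector ℓ F)⟦X⟧) :=
    PowerSeries.C_injective
  have hℓne : ((ℓ : ℕ) : (WittVector ℓ F)⟦X⟧) ≠ 0 := by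
    rw [hℓS, wittCdv_π]
    intro h
    have h2 := hCinj (h.trans (map_zero _).symm)
    exact hℓ.ne_zero (Nat.cast_eq_zero.1 h2)
  -- (2) left inverses
  have huw : ∀ w : W, ∃ u' : A, u' * rt x y (α w) = 1 := by
    intro w
    obtain ⟨u₀, hu₀w⟩ := hu₀ w
    exact lft_inv (cv := wittCdv ℓ F) (rt x y (α w)) (rt x₀ y₀ (α₀ w)) u₀ f (rt_red hL w) hu₀w
  -- (3) the lift
  obtain ⟨u₁, hu₁⟩ := hu₀ 1
  rw [Subgroup.coe_one, map_one] at hu₁
  have hcen := (uzl' (WittVector ℓ F) F V A₀ A κ Ω (wittCdv ℓ F) α₀ lam₀ x₀ y₀ b₀ c₀ f α lam x y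
    b c u₁ hL hu₁).2.2
  have hfr₀ := fr_red hL
  let actW : MulAction (W × W) Ω :=
    MulAction.compHom Ω ((Subgroup.subtype W).prodMap (Subgroup.subtype W))
  have hfrW : FrR (bw (WittVector ℓ F) (aw α W)) b c :=
    ⟨fun g t => hL.fr.1 ((g.1 : V), (g.2 : V)) t, fun g t n => hL.fr.2.1 ((g.1 : V), (g.2 : V)) t n,
      hL.fr.2.2⟩
  have hfr₀W : FrR (bw F (aw α₀ W)) b₀ c₀ :=
    ⟨fun g t => hfr₀.1 ((g.1 : V), (g.2 : V)) t, fun g t n => hfr₀.2.1 ((g.1 : V), (g.2 : V)) t n,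
      hfr₀.2.2⟩
  obtain ⟨cs, hcs, -⟩ := cfr' (WittVector ℓ F) W A Ω (aw α W) D b c hfrW
  obtain ⟨cs₀, hcs₀, -⟩ := cfr' F W A₀ Ω (aw α₀ W) D₀ b₀ c₀ hfr₀W
  have hψb : (fun ω => ψ (D.of (cst (b ω)))) = fun ω => D₀.of (cst (b₀ ω)) := by
    funext ω
    rw [hψ]
    congr 1
    funext n
    unfold cst
    split_ifs
    · exact hL.qb ω
    · exact map_zero f.q
  have hOL : OL ℓ (PowerSeries.map (wittCdv ℓ F).κ) D₀.w D.w ψ Λ x' y' := by
    refine ⟨PowerSeries.map_surjective _ (wittCdv ℓ F).surj, ?_, hψsm, hψw, ?_, ?_, hRF, ?_, ?_⟩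
    · intro d hd
      obtain ⟨m, d', h1, h2⟩ := sps (WittVector ℓ F) F (wittCdv ℓ F) d hd
      refine ⟨m, d', ?_, h2⟩
      rw [hℓS]
      exact h1
    · intro a ha
      obtain ⟨a', ha'⟩ := hψ'k (wittCdv ℓ F).π f.ker a (by rw [hψeq, ha])
      refine ⟨a', ?_⟩
      rw [hsmℓ, hℓS]
      exact ha'
    · intro a ha
      rw [hsmℓ] at ha
      exact smul_right_injective D.R hℓne (ha.trans (smul_zero _).symm)
    · exact cnl (WittVector ℓ F) F V A A₀ W α (wittCdv ℓ F) f α₀ D D₀ ψ hψ hH hcen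
    · refine ⟨Ω, inferInstance, actW, fun ω => D.of (cst (b ω)), cs, cs₀, hcs, ?_⟩
      rw [hψb]
      exact hcs₀
  have hF0 : ((ℓ : ℕ) : F⟦X⟧) = 0 := by
    have h : ((ℓ : ℕ) : F⟦X⟧) = PowerSeries.C ((ℓ : ℕ) : F) := (map_natCast _ _).symm
    rw [h, CharP.cast_eq_zero, map_zero]
  refine ⟨κ × T, inferInstance, Λ₀, fun t => ψ (x' t), fun t => ψ (y' t), hRF', ?_,
    fun w => ⟨?_, ?_⟩⟩
  · intro g
    choose g' hg' using fun n => f.surj (g n)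
    have e : D₀.of g = ψ (D.of g') := by
      rw [hψ]
      congr 1
      funext n
      exact (hg' n).symm
    rw [e, hΛ₀, ← PowerSeries.coeff_zero_eq_constantCoeff_apply, PowerSeries.coeff_map,
      PowerSeries.coeff_zero_eq_constantCoeff_apply, hΛ2, hL.ql, hg']
  · -- (4)
    obtain ⟨u', hu'⟩ := huw w
    have hreg := nzd (WittVector ℓ F) K V A B κ (κ × T) Ω W α lam x y b c C D P m Λ x' y' w u'
      hTr hm hRF hu'
    obtain ⟨r', d, hd0, hr'⟩ := dvd (WittVector ℓ F)⟦X⟧ D.R (rt x' y' (D.w w)) hreg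
    exact nbl ℓ (WittVector ℓ F)⟦X⟧ F⟦X⟧ W D₀.R D.R (κ × T) (PowerSeries.map (wittCdv ℓ F).κ)
      D₀.w D.w ψ Λ x' y' w r' d hF0 (hpV.to_subgroup W) hOL hd0 hr'
  · -- (5)
    obtain ⟨u', hu'⟩ := huw w
    obtain ⟨d, a, ha0, hsum⟩ := rhr (WittVector ℓ F) K V A B κ (κ × T) Ω W α lam x y b c C D P m Λ
      x' y' w u u' hTr hm hRF hu hu'
    refine ⟨d, fun i => (wittCdv ℓ F).κ (a i), (ha0.map (wittCdv ℓ F).κ).ne_zero, ?_⟩
    have h := congrArg ψ hsum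
    rw [map_sum, map_zero] at h
    refine Eq.trans (Finset.sum_congr rfl fun i _ => ?_) h
    rw [hψsm, PowerSeries.map_C, map_mul, map_pow, map_pow]
    have e1 : ψ (rt x' y' (D.w w)) = ∑ k, ψ (x' k) * D₀.w w * ψ (y' k) := by
      unfold rt
      rw [map_sum]
      refine Finset.sum_congr rfl fun k _ => ?_
      rw [map_mul, map_mul, hψw]
    have e2 : ψ (rt x' y' 1) = ∑ k, ψ (x' k) * ψ (y' k) := by
      unfold rt
      rw [map_sum]
      refine Finset.sum_congr rfl fun k _ => ?_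
      rw [mul_one, map_mul]
    rw [e1, e2]

end Pool.Agent.PST.U.H28
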