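import Pool.Agent.PST.StmtsUC

/-!
# Squad PST, block UC, row QTX (helper28): existence of the quotient
-/

set_option autoImplicit false

open scoped BigOperators

noncomputable section

namespace Pool.Agent.PST.UC.H28

open Pool.Agent.PSS
open Pool.Agent.PSS.S0

section

variable (R : Type) {V A : Type} [CommRing R] [CommGroup V] [Ring A] [Algebra R A]

theorem aug_mul_left (α : V →* A) (N : Subgroup V) (hc : ∀ n ∈ N, ∀ a, α n * a = a * α n)
    (c x : A) (hx : x ∈ Aug R (α.comp N.subtype) ⊤) : c * x ∈ Aug R (α.comp N.subtype) ⊤ := by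
  unfold Aug at hx ⊢
  induction hx using Submodule.span_induction with
  | mem y hy =>
    obtain ⟨n, b, -, rfl⟩ := hy
    refine Submodule.subset_span ⟨n, c * b, trivial, ?_⟩
    have h : c * α (n : V) = α (n : V) * c := (hc n n.2 c).symm
    show c * ((α (n : V) - 1) * b) = (α (n : V) - 1) * (c * b)
    rw [← mul_assoc, mul_sub, mul_one, h, sub_mul, sub_mul, one_mul, mul_assoc]
  | zero => rw [mul_zero]; exact Submodule.zero_mem _
  | add x y _ _ hx hy => rw [mul_add]; exact Submodule.add_mem _ hx hy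
  | smul r x _ hx => rw [mul_smul_comm]; exact Submodule.smul_mem _ r hx

theorem aug_mul_right (α : V →* A) (N : Subgroup V)
    (c x : A) (hx : x ∈ Aug R (α.comp N.subtype) ⊤) : x * c ∈ Aug R (α.comp N.subtype) ⊤ := by
  unfold Aug at hx ⊢
  induction hx using Submodule.span_induction with
  | mem y hy =>
    obtain ⟨n, b, -, rfl⟩ := hy
    exact Submodule.subset_span ⟨n, b * c, trivial, mul_assoc _ _ _⟩
  | zero => rw [zero_mul]; exact Submodule.zero_mem _
  | add x y _ _ hx hy => rw [add_mul]; exact Submodule.add_mem _ hx hy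
  | smul r x _ hx => rw [smul_mul_assoc]; exact Submodule.smul_mem _ r hx

/-- the ideal -/
def augI (α : V →* A) (N : Subgroup V) (hc : ∀ n ∈ N, ∀ a, α n * a = a * α n) : Ideal A where
  carrier := {a | a ∈ Aug R (α.comp N.subtype) ⊤}
  add_mem' := by
    intro a b ha hb
    exact (Aug R (α.comp N.subtype) ⊤).add_mem ha hb
  zero_mem' := (Aug R (α.comp N.subtype) ⊤).zero_mem
  smul_mem' := by
    intro c x hx
    exact aug_mul_left R α N hc c x hx

theorem mem_augI (α : V →* A) (N : Subgroup V) (hc : ∀ n ∈ N, ∀ a, α n * a = a * α n) (a : A) :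
    a ∈ augI R α N hc ↔ a ∈ Aug R (α.comp N.subtype) ⊤ := Iff.rfl

instance (α : V →* A) (N : Subgroup V) (hc : ∀ n ∈ N, ∀ a, α n * a = a * α n) :
    (augI R α N hc).IsTwoSided where
  mul_mem_of_left := by
    intro a b ha
    exact aug_mul_right R α N b a ha

end

theorem qtx : QtxStmt := by
  intro R V A _ _ _ _ α N hc
  refine ⟨A ⧸ augI R α N hc, inferInstance, inferInstance,
    QuotientGroup.lift N
      (((Ideal.Quotient.mkₐ R (augI R α N hc)) : A →* A ⧸ augI R α N hc).comp α) ?_,
    Ideal.Quotient.mkₐ R (augI R α N hc), ?_⟩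
  · intro n hn
    show Ideal.Quotient.mk (augI R α N hc) (α n) = 1
    rw [← map_one (Ideal.Quotient.mk (augI R α N hc)), Ideal.Quotient.eq]
    show α n - 1 ∈ Aug R (α.comp N.subtype) ⊤
    exact Submodule.subset_span ⟨⟨n, hn⟩, 1, trivial, (mul_one _).symm⟩
  · constructor
    · exact hc
    · exact Ideal.Quotient.mk_surjective
    · intro a
      show Ideal.Quotient.mk (augI R α N hc) a = 0 ↔ _
      rw [Ideal.Quotient.eq_zero_iff_mem]
      rfl
    · intro v
      rfl

end Pool.Agent.PST.UC.H28

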